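import Pool.Agent.H54.WB.TargetsA

/-! MP_64fb07_lc, width borders: the core is small, vertex cover number. -/

namespace Pool.Agent.H11.WB

open Pool.Agent.H54.WB

theorem pf_LGV : T_LGV := by
  intro c K h
  obtain ⟨m, hm⟩ : ∃ m, m = Nat.clog 2 K := ⟨_, rfl⟩
  have hK : 1 < K := by
    by_contra h1
    have h2 : Nat.clog 2 K = 0 := Nat.clog_of_right_le_one (by omega) 2
    omega
  have h1 : 2 ^ (m - 1) < K := by
    have h3 := Nat.pow_pred_clog_lt_self (b := 2) (by norm_num) hK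
    rw [← hm] at h3
    exact h3
  have h2 : 2 ^ (2 * (m - 1)) ≤ gV (c + 1) K := by
    have h4 : 2 ^ (2 * (m - 1)) = 2 ^ (m - 1) * 2 ^ (m - 1) := by
      rw [two_mul, pow_add]
    have h5 : 2 ^ (m - 1) * 2 ^ (m - 1) ≤ K * K := Nat.mul_le_mul h1.le h1.le
    unfold gV
    omega
  have h6 : 2 * (m - 1) ≤ Nat.log 2 (gV (c + 1) K) := Nat.le_log_of_pow_le (by norm_num) h2
  rw [← hm] at h ⊢
  omega

end Pool.Agent.H11.WB
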